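import Pool.Agent.W105.MC.Bound

set_option autoImplicit false

/-!
# The measurable colouring
-/

open Finset MeasureTheory

namespace Pool.Agent.W105.MC

open Pool.Agent.H958R2.GK

/-- almost surely the coordinates are distinct -/
theorem ae_ne (v w : F2) (hvw : v ≠ w) : ∀ᵐ x ∂mu, x v ≠ x w := by
  classical
  rw [ae_iff]
  have hb : ∀ K : ℕ, mu {x | ¬ x v ≠ x w} ≤ ENNReal.ofReal (1 / ((K : ℝ) + 1)) := by
    intro K
    have h1 : {x : F2 → unitInterval | ¬ x v ≠ x w} ⊆
        ⋃ j ∈ (univ : Finset (Fin (K + 1))), Set.pi (({v, w} : Finset F2) : Set F2)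
          (fun _ => {u | cel (K + 1) (Nat.succ_pos K) u = j}) := by
      intro x hx
      have hx' : x v = x w := by
        by_contra h
        exact hx h
      rw [Set.mem_iUnion₂]
      refine ⟨cel (K + 1) (Nat.succ_pos K) (x v), Finset.mem_univ _, ?_⟩
      intro u hu
      rw [Finset.mem_coe, Finset.mem_insert, Finset.mem_singleton] at hu
      rcases hu with rfl | rfl
      · rfl
      · show cel _ _ _ = _
        rw [hx']
    have h2 : ∀ j : Fin (K + 1), mu (Set.pi (({v, w} : Finset F2) : Set F2)
        (fun _ => {u | cel (K + 1) (Nat.succ_pos K) u = j})) ≤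
        ENNReal.ofReal (1 / ((K + 1 : ℕ) : ℝ)) * ENNReal.ofReal (1 / ((K + 1 : ℕ) : ℝ)) := by
      intro j
      have hm : MeasurableSet {u : unitInterval | cel (K + 1) (Nat.succ_pos K) u = j} :=
        (meas_cel _ _) (measurableSet_singleton _)
      rw [Measure.infinitePi_pi _ (fun _ _ => hm), Finset.prod_pair hvw]
      exact mul_le_mul' (vol_cel _ _ _) (vol_cel _ _ _)
    refine (measure_mono h1).trans ((measure_biUnion_finset_le _ _).trans ?_)
    refine (Finset.sum_le_sum fun j _ => h2 j).trans ?_
    rw [Finset.sum_const, nsmul_eq_mul, Finset.card_univ, Fintype.card_fin, ← mul_assoc,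
      ← ENNReal.ofReal_natCast, ← ENNReal.ofReal_mul (by positivity),
      ← ENNReal.ofReal_mul (by positivity)]
    apply ENNReal.ofReal_le_ofReal
    apply le_of_eq
    push_cast
    field_simp
  have ht : Filter.Tendsto (fun K : ℕ => ENNReal.ofReal (1 / ((K : ℝ) + 1))) Filter.atTop
      (nhds 0) := by
    rw [← ENNReal.ofReal_zero]
    exact ENNReal.tendsto_ofReal tendsto_one_div_add_atTop_nhds_zero_nat
  exact le_antisymm (ge_of_tendsto' ht hb) zero_le

theorem ae_inj : ∀ᵐ x ∂mu, Function.Injective x := by
  have h : ∀ᵐ x ∂mu, ∀ v w : F2, v ≠ w → x v ≠ x w := by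
    rw [ae_all_iff]
    intro v
    rw [ae_all_iff]
    intro w
    by_cases hvw : v = w
    · exact Filter.Eventually.of_forall fun x h => absurd hvw h
    · filter_upwards [ae_ne v w hvw] with x hx _
      exact hx
  filter_upwards [h] with x hx v w hvw
  by_contra hne
  exact hx v w hne hvw

section

variable (T N : ℕ) (P : ℕ → ℕ → ℕ) (hN : 0 < N)

/-- `v` lies in the independent set -/
def J (x : F2 → unitInterval) (v : F2) : Prop := inI nbF P (lx T N hN x) v

/-- `w` is a neighbour of `v` and both are outside of the independent set -/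
def stp2 (x : F2 → unitInterval) (v w : F2) : Prop :=
  w ∈ nbF v ∧ ¬ J T N P hN x v ∧ ¬ J T N P hN x w

/-- connected outside of the independent set -/
def Conn (x : F2 → unitInterval) (v w : F2) : Prop :=
  Relation.ReflTransGen (stp2 T N P hN x) v w

/-- the shifted point -/
def shf (γ : F2) (x : F2 → unitInterval) : F2 → unitInterval := fun δ => x (γ * δ)

/-- `r` carries the least label of the component of `1` -/
def Rt (x : F2 → unitInterval) (r : F2) : Prop :=
  Conn T N P hN x 1 r ∧ ∀ v, Conn T N P hN x 1 v → x r ≤ x v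

/-- the parity -/
def par : F2 →* Multiplicative (ZMod 2) :=
  FreeGroup.lift (fun _ => Multiplicative.ofAdd (1 : ZMod 2))

open Classical in
/-- the colour of the point -/
noncomputable def colr (x : F2 → unitInterval) : Fin 3 :=
  if J T N P hN x 1 then 0 else if ∃ r, Rt T N P hN x r ∧ par r = 1 then 1 else 2

variable {T N P hN}

theorem J_shf (γ : F2) (x : F2 → unitInterval) (v : F2) :
    J T N P hN (shf γ x) v ↔ J T N P hN x (γ * v) :=
  inI_pull (cov_mul γ) P (lx T N hN x) v

theorem mem_nbF_mul (γ v w : F2) : γ * w ∈ nbF (γ * v) ↔ w ∈ nbF v := by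
  rw [mem_nbq, mem_nbq]
  apply exists_congr
  intro a
  rw [mul_assoc, mul_right_inj]

theorem stp2_shf (γ : F2) (x : F2 → unitInterval) (v w : F2) :
    stp2 T N P hN (shf γ x) v w ↔ stp2 T N P hN x (γ * v) (γ * w) := by
  unfold stp2
  rw [J_shf, J_shf, mem_nbF_mul]

theorem Conn_shf (γ : F2) (x : F2 → unitInterval) (v w : F2) :
    Conn T N P hN (shf γ x) v w ↔ Conn T N P hN x (γ * v) (γ * w) := by
  constructor
  · intro h
    exact Relation.ReflTransGen.lift (p := stp2 T N P hN x) (fun v => γ * v)
      (fun a b h => (stp2_shf γ x a b).1 h) v w h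
  · intro h
    have h1 := Relation.ReflTransGen.lift (p := stp2 T N P hN (shf γ x)) (fun v => γ⁻¹ * v)
      (fun a b (h : stp2 T N P hN x a b) => (stp2_shf γ x _ _).2 (by
        rw [mul_inv_cancel_left, mul_inv_cancel_left]; exact h)) _ _ h
    have e1 : γ⁻¹ * (γ * v) = v := inv_mul_cancel_left _ _
    have e2 : γ⁻¹ * (γ * w) = w := inv_mul_cancel_left _ _
    have h2 : Relation.ReflTransGen (stp2 T N P hN (shf γ x)) (γ⁻¹ * (γ * v)) (γ⁻¹ * (γ * w)) := h1
    rw [e1, e2] at h2
    exact h2

theorem Conn_symm {x : F2 → unitInterval} {v w : F2} (h : Conn T N P hN x v w) :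
    Conn T N P hN x w v := by
  have : Std.Symm (stp2 T N P hN x) := ⟨fun _ _ h => ⟨nbF_symm _ _ h.1, h.2.2, h.2.1⟩⟩
  exact (Relation.ReflTransGen.stdSymm (r := stp2 T N P hN x)).symm _ _ h

theorem conn_nbw {x : F2 → unitInterval} {v w : F2} (hw : ¬ J T N P hN x w)
    (h : Conn T N P hN x v w) : ∃ l : List F2, NBW nbF l ∧ l.head? = some v ∧
      l.getLast? = some w ∧ ∀ u ∈ l, ¬ J T N P hN x u := by
  induction h using Relation.ReflTransGen.head_induction_on with
  | refl => exact ⟨[w], trivial, rfl, rfl, by simpa using hw⟩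
  | @head a b h1 _ ih =>
    obtain ⟨l, h2, h3, h4, h5⟩ := ih
    cases l with
    | nil => simp at h3
    | cons q l =>
      have e : q = b := by simpa using h3
      subst e
      cases l with
      | nil =>
        refine ⟨[a, q], h1.1, rfl, ?_, ?_⟩
        · simpa using h4
        · intro u hu
          rw [List.mem_cons] at hu
          rcases hu with rfl | hu
          · exact h1.2.1
          · exact h5 u hu
      | cons c l =>
        by_cases hc : a = c
        · subst hc
          refine ⟨a :: l, ?_, rfl, ?_, ?_⟩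
          · cases l with
            | nil => trivial
            | cons _ _ => exact h2.2.2
          · rw [List.getLast?_cons_cons] at h4
            exact h4
          · intro u hu
            exact h5 u (List.mem_cons_of_mem _ hu)
        · refine ⟨a :: q :: c :: l, ⟨h1.1, hc, h2⟩, rfl, ?_, ?_⟩
          · rw [List.getLast?_cons_cons]
            exact h4
          · intro u hu
            rw [List.mem_cons] at hu
            rcases hu with rfl | hu
            · exact h1.2.1
            · exact h5 u hu

theorem nbw_take {V : Type} (nb : V → Finset V) : ∀ (l : List V) (k : ℕ),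
    NBW nb l → NBW nb (l.take k)
  | [], k, _ => by rw [List.take_nil]; trivial
  | [a], k, _ => by
    cases k
    · trivial
    · rw [List.take_succ_cons, List.take_nil]; trivial
  | [a, b], k, h => by
    rcases k with _ | _ | k
    · trivial
    · trivial
    · rw [List.take_succ_cons, List.take_succ_cons, List.take_nil]; exact h
  | a :: b :: c :: l, k, h => by
    have ih := nbw_take nb (b :: c :: l) (k - 1) h.2.2
    rcases k with _ | _ | _ | k
    · trivial
    · trivial
    · exact h.1
    · simp only [List.take_succ_cons] at ih ⊢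
      exact ⟨h.1, h.2.1, ih⟩

theorem finite_comp {x : F2 → unitInterval} (h1 : ¬ J T N P hN x 1) (L : ℕ)
    (hL : ¬ AV nbF P (lx T N hN x) L 1) : {w | Conn T N P hN x 1 w}.Finite := by
  have hfin : {w : F2 | w.norm ≤ L}.Finite :=
    (List.finite_length_le (Fin 2 × Bool) L).preimage FreeGroup.toWord_injective.injOn
  refine hfin.subset ?_
  intro w hw
  have hwJ : ¬ J T N P hN x w := by
    rcases Relation.ReflTransGen.cases_tail hw with h | ⟨u, _, h⟩
    · rw [h]; exact h1
    · exact h.2.2
  obtain ⟨l, h2, h3, h4, h5⟩ := conn_nbw hwJ hw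
  have hlen : l.length ≤ L := by
    by_contra hcon
    apply hL
    refine ⟨l.take (L + 1), nbw_take nbF l _ h2, ?_, ?_, ?_⟩
    · rw [← h3]
      cases l with
      | nil => simp at h3
      | cons a l => rfl
    · rw [List.length_take]; omega
    · intro u hu
      exact h5 u (List.mem_of_mem_take hu)
  cases l with
  | nil => simp at h3
  | cons q l =>
    have e : q = 1 := by simpa using h3
    subst e
    obtain ⟨wd, hw1, hw2, hw3⟩ := lift_nbw (MonoidHom.id F2) l 1 h2
    rw [hw3, trc_last] at h4
    have e : w = FreeGroup.mk wd := by simpa using h4.symm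
    show w.norm ≤ L
    rw [e]
    refine FreeGroup.norm_mk_le.trans ?_
    rw [List.length_cons] at hlen
    omega

theorem exists_root {x : F2 → unitInterval} (hfin : {w | Conn T N P hN x 1 w}.Finite) :
    ∃ r, Rt T N P hN x r := by
  obtain ⟨r, hr, hmin⟩ := Set.exists_min_image {w | Conn T N P hN x 1 w} x hfin
    ⟨1, Relation.ReflTransGen.refl⟩
  exact ⟨r, hr, hmin⟩

theorem root_unique {x : F2 → unitInterval} (hx : Function.Injective x) {r r' : F2}
    (h : Rt T N P hN x r) (h' : Rt T N P hN x r') : r = r' :=
  hx (le_antisymm (h.2 r' h'.1) (h'.2 r h.1))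

theorem par_of (i : Fin 2) (v : F2) : par (FreeGroup.of i * v) = 1 ↔ ¬ par v = 1 := by
  rw [map_mul]
  have h : par (FreeGroup.of i) = Multiplicative.ofAdd (1 : ZMod 2) := by
    unfold par
    rw [FreeGroup.lift_apply_of]
  rw [h]
  generalize par v = z
  revert z
  decide

theorem of_mem_nbF (i : Fin 2) : FreeGroup.of i ∈ nbF 1 := by
  rw [mem_nbq]
  exact ⟨(i, true), by rw [MonoidHom.id_apply, one_mul]; rfl⟩

theorem colr_ne {x : F2 → unitInterval} (hx : Function.Injective x)
    (hL : ∃ L, ¬ AV nbF P (lx T N hN x) L 1) (i : Fin 2) :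
    colr T N P hN x ≠ colr T N P hN (shf (FreeGroup.of i) x) := by
  classical
  set g : F2 := FreeGroup.of i with hg
  have hJ : J T N P hN (shf g x) 1 ↔ J T N P hN x g := by
    rw [J_shf, mul_one]
  unfold colr
  by_cases h1 : J T N P hN x 1
  · have h2 : ¬ J T N P hN (shf g x) 1 := by
      rw [hJ]
      intro h2
      exact indep_inI nbF_symm h1 h2 (of_mem_nbF i)
    rw [if_pos h1, if_neg h2]
    split_ifs <;> decide
  · by_cases h2 : J T N P hN (shf g x) 1
    · rw [if_pos h2, if_neg h1]
      split_ifs <;> decide
    · rw [if_neg h1, if_neg h2]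
      rw [hJ] at h2
      obtain ⟨L, hL⟩ := hL
      have hfin := finite_comp h1 L hL
      obtain ⟨r, hr⟩ := exists_root hfin
      have hc : Conn T N P hN x 1 g := Relation.ReflTransGen.single ⟨of_mem_nbF i, h1, h2⟩
      have hroot : ∀ s, Rt T N P hN (shf g x) s ↔ Rt T N P hN x (g * s) := by
        intro s
        unfold Rt
        have e : ∀ v, Conn T N P hN (shf g x) 1 v ↔ Conn T N P hN x 1 (g * v) := by
          intro v
          rw [Conn_shf, mul_one]
          exact ⟨fun h => Relation.ReflTransGen.trans hc h,
            fun h => Relation.ReflTransGen.trans (Conn_symm hc) h⟩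
        rw [e]
        apply and_congr_right
        intro _
        constructor
        · intro h v hv
          have := h (g⁻¹ * v) (by rw [e, mul_inv_cancel_left]; exact hv)
          have e2 : shf g x (g⁻¹ * v) = x v := by
            unfold shf
            rw [mul_inv_cancel_left]
          rw [e2] at this
          exact this
        · intro h v hv
          rw [e] at hv
          exact h _ hv
      have h3 : (∃ s, Rt T N P hN x s ∧ par s = 1) ↔ par r = 1 := by
        constructor
        · rintro ⟨s, hs, h⟩
          rwa [root_unique hx hr hs]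
        · intro h
          exact ⟨r, hr, h⟩
      have h4 : (∃ s, Rt T N P hN (shf g x) s ∧ par s = 1) ↔ ¬ par r = 1 := by
        constructor
        · rintro ⟨s, hs, h⟩
          rw [hroot] at hs
          rw [root_unique hx hr hs, par_of]
          exact fun h' => h' h
        · intro h
          refine ⟨g⁻¹ * r, ?_, ?_⟩
          · rw [hroot, mul_inv_cancel_left]
            exact hr
          · by_contra h5
            apply h
            have := (par_of i (g⁻¹ * r)).2 h5
            rwa [← hg, mul_inv_cancel_left] at this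
      by_cases h5 : par r = 1
      · rw [if_pos (h3.2 h5), if_neg (fun h => h4.1 h h5)]
        decide
      · rw [if_neg (fun h => h5 (h3.1 h)), if_pos (h4.2 h5)]
        decide

/-! ### Measurability -/

theorem finite_Bl {V : Type} (nb : V → Finset V) (k : ℕ) (v : V) (T : ℕ) :
    (lab (T := T) (Bl nb k v)).Finite := by
  have : lab (T := T) (Bl nb k v) = (Bl nb k v : Set V) ×ˢ (Set.univ : Set (Fin T)) := by
    ext i
    simp [lab]
  rw [this]
  exact (Finset.finite_toSet _).prod (Set.toFinite _)

theorem meas_J (v : F2) : MeasurableSet {x | J T N P hN x v} :=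
  meas_dep hN (fun ω => inI nbF P ω v) _ (finite_Bl nbF (3 * T + 3) v T) (dep_inI nbF T N P v)

theorem meas_stp2 (v w : F2) : MeasurableSet {x | stp2 T N P hN x v w} := by
  have : {x | stp2 T N P hN x v w} =
      {_x | w ∈ nbF v} ∩ ({x | J T N P hN x v}ᶜ ∩ {x | J T N P hN x w}ᶜ) := rfl
  rw [this]
  exact (MeasurableSet.const _).inter ((meas_J v).compl.inter (meas_J w).compl)

/-- walks with `n` steps -/
def Cn (T N : ℕ) (P : ℕ → ℕ → ℕ) (hN : 0 < N) : ℕ → (F2 → unitInterval) → F2 → F2 → Prop
  | 0 => fun _ v w => v = w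
  | n + 1 => fun x v w => ∃ u, Cn T N P hN n x v u ∧ stp2 T N P hN x u w

theorem conn_iff (x : F2 → unitInterval) (v w : F2) :
    Conn T N P hN x v w ↔ ∃ n, Cn T N P hN n x v w := by
  constructor
  · intro h
    induction h with
    | refl => exact ⟨0, rfl⟩
    | tail _ h ih =>
      obtain ⟨n, ih⟩ := ih
      exact ⟨n + 1, _, ih, h⟩
  · rintro ⟨n, h⟩
    induction n generalizing w with
    | zero =>
      have : v = w := h
      rw [this]
      exact Relation.ReflTransGen.refl
    | succ n ih =>
      obtain ⟨u, h1, h2⟩ := h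
      exact (ih u h1).tail h2

theorem meas_Cn (n : ℕ) (v w : F2) : MeasurableSet {x | Cn T N P hN n x v w} := by
  induction n generalizing w with
  | zero => exact MeasurableSet.const _
  | succ n ih =>
    have : {x | Cn T N P hN (n + 1) x v w} =
        ⋃ u : F2, {x | Cn T N P hN n x v u} ∩ {x | stp2 T N P hN x u w} := by
      ext x
      rw [Set.mem_iUnion]
      exact Iff.rfl
    rw [this]
    exact MeasurableSet.iUnion fun u => (ih u).inter (meas_stp2 u w)

theorem meas_Conn (v w : F2) : MeasurableSet {x | Conn T N P hN x v w} := by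
  have : {x | Conn T N P hN x v w} = ⋃ n : ℕ, {x | Cn T N P hN n x v w} := by
    ext x
    rw [Set.mem_iUnion]
    exact conn_iff x v w
  rw [this]
  exact MeasurableSet.iUnion fun n => meas_Cn n v w

theorem meas_Rt (r : F2) : MeasurableSet {x | Rt T N P hN x r} := by
  have : {x | Rt T N P hN x r} = {x | Conn T N P hN x 1 r} ∩
      ⋂ v : F2, ({x | Conn T N P hN x 1 v}ᶜ ∪ {x : F2 → unitInterval | x r ≤ x v}) := by
    ext x
    rw [Set.mem_inter_iff, Set.mem_iInter]
    apply and_congr_right
    intro _
    apply forall_congr'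
    intro v
    rw [Set.mem_union, Set.mem_compl_iff, imp_iff_not_or]
    exact Iff.rfl
  rw [this]
  refine (meas_Conn 1 r).inter (MeasurableSet.iInter fun v => (meas_Conn 1 v).compl.union ?_)
  exact measurableSet_le (measurable_pi_apply r) (measurable_pi_apply v)

theorem meas_colr : Measurable (colr T N P hN) := by
  classical
  have h1 : MeasurableSet {x | ∃ r, Rt T N P hN x r ∧ par r = 1} := by
    have : {x | ∃ r, Rt T N P hN x r ∧ par r = 1} =
        ⋃ r : F2, {x | Rt T N P hN x r} ∩ {_x | par r = 1} := by
      ext x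
      rw [Set.mem_iUnion]
      exact Iff.rfl
    rw [this]
    exact MeasurableSet.iUnion fun r => (meas_Rt r).inter (MeasurableSet.const _)
  unfold colr
  exact Measurable.ite (meas_J 1) measurable_const
    (Measurable.ite h1 measurable_const measurable_const)

end

/-- The Bernoulli shift of the free group of rank two has a measurable proper colouring with three
colours. -/
theorem main : ∃ c : (F2 → unitInterval) → Fin 3, Measurable c ∧
    ∀ i : Fin 2, ∀ᵐ x ∂mu, c x ≠ c (fun δ => x (FreeGroup.of i * δ)) := by
  obtain ⟨T, N, P, hN, h⟩ := ae_bound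
  refine ⟨colr T N P hN, meas_colr, fun i => ?_⟩
  filter_upwards [h, ae_inj] with x hx hinj
  exact colr_ne hinj hx i

end Pool.Agent.W105.MC
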