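import Pool.Agent.W105.MC.Prob
import Pool.Agent.H958R2.GK.Main

set_option autoImplicit false

/-!
# Long walks in the free group meet the independent set
-/

open Finset MeasureTheory

namespace Pool.Agent.W105.MC

open Pool.Agent.H958R2.GK

/-- the probability that a walk of a finite graph of large girth avoids the independent set -/
theorem walk_bound : ∃ (T N : ℕ) (P : ℕ → ℕ → ℕ) (K lam : ℝ), 0 < N ∧ 0 ≤ K ∧ 0 < lam ∧
    lam < 1 / 3 ∧ ∀ (L : ℕ), 1 ≤ L → ∀ (V : Type) [Fintype V] (nb : V → Finset V), Nb4 nb →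
    Uniq nb (L + 1 + 3 * T + 12) → ∀ l : List V, NBW nb l → l.length = L + 1 →
      Pr (fun ω : Lab V T N => ∀ v ∈ l, ¬ inI nb P ω v) ≤ K * lam ^ (L - 1) := by
  have hmsg : St_MSG := msg_proof prob_proof coin_proof suppm_proof disj_proof
    (site_proof prob_proof coin_proof suppm_proof) (gl_proof prob_proof suppm_proof) dd_proof
  have hwpr : St_WPR := wpr_proof prob_proof coin_proof suppm_proof disj_proof
    (site_proof prob_proof coin_proof suppm_proof) (gl_proof prob_proof suppm_proof) dd_proof hmsg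
  have hPath : St_PATHPR := pathpr_proof prob_proof suppm_proof disj_proof hwpr
  have hP : St_PD := pd_proof cons_proof
  obtain ⟨T, N, P, S, lam, del, q, q', c, g, r, y, be, hN0, hPN, hSp, hM, hPC, hlam⟩ := num_proof
  obtain ⟨C, hC0, hQ⟩ := alg_proof T S lam del q q' c g r y be hM hPC
  have hl0 := hPC.lam0
  refine ⟨T, N, P, (T + 1 : ℝ) ^ 2 * C, lam, hN0, by positivity, hl0, hlam, ?_⟩
  intro L hL V _ nb hNb4 hU l hl hlen
  have : Nonempty (Fin N) := ⟨⟨0, hN0⟩⟩
  obtain ⟨hPr01, hPrmono, hPror, hPrun, hPrind, hPrind2⟩ := prob_proof (V × Fin T) (Fin N)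
  have h1 : Pr (fun ω : Lab V T N => ∀ v ∈ l, ¬ inI nb P ω v) ≤
      Pr (fun ω : Lab V T N => ∃ k ∈ (range (T + 1) ×ˢ range (T + 1) : Finset (ℕ × ℕ)),
        EvL nb P ω l k.1 k.2) := by
    apply hPrmono
    intro ω hω
    obtain ⟨y, hy, x, hx, h⟩ := hP V nb hNb4 T N P ω l hl hω
    exact ⟨(y, x), by simp only [Finset.mem_product, Finset.mem_range]; omega, h⟩
  refine h1.trans ((hPrun (ℕ × ℕ) _ _).trans ?_)
  have h2 : ∀ k ∈ (range (T + 1) ×ˢ range (T + 1) : Finset (ℕ × ℕ)),
      Pr (fun ω : Lab V T N => EvL nb P ω l k.1 k.2) ≤ C * lam ^ (L - 1) := by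
    intro k hk
    simp only [Finset.mem_product, Finset.mem_range] at hk
    refine (hPath V nb hNb4 T N P S hN0 hPN hSp hM l hl (by rw [hlen]; exact hU) k.1 (by omega)
      k.2 (by omega)).trans ?_
    rw [hlen, show L + 1 - 2 = L - 1 by omega]
    exact hQ _ _ (by omega) _ (by omega)
  refine (Finset.sum_le_sum h2).trans ?_
  rw [Finset.sum_const, Finset.card_product, Finset.card_range, nsmul_eq_mul]
  push_cast
  apply le_of_eq; ring

/-- a non-backtracking walk with `L` steps from `v` avoids the independent set -/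
def AV {V : Type} {T N : ℕ} (nb : V → Finset V) (P : ℕ → ℕ → ℕ) (ω : Lab V T N) (L : ℕ)
    (v : V) : Prop :=
  ∃ l : List V, NBW nb l ∧ l.head? = some v ∧ l.length = L + 1 ∧ ∀ u ∈ l, ¬ inI nb P ω u

/-- the neighbourhoods in the free group -/
noncomputable abbrev nbF : F2 → Finset F2 := nbq (MonoidHom.id F2)

theorem nbF_symm : ∀ v w, w ∈ nbF v → v ∈ nbF w :=
  (nb4_nbq (MonoidHom.id F2) (fun _ _ _ _ h => h)).symm

theorem mem_trc {Q : Type} [Group Q] (φ : F2 →* Q) : ∀ (w : List Ltr) (q u : Q),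
    u ∈ trc φ q w → ∃ g : F2, g.norm ≤ w.length ∧ u = q * φ g
  | [], q, u, h => by
    rw [trc, List.mem_singleton] at h
    exact ⟨1, by simp, by rw [map_one, mul_one, h]⟩
  | a :: w, q, u, h => by
    rw [trc, List.mem_cons] at h
    rcases h with h | h
    · exact ⟨1, by simp, by rw [map_one, mul_one, h]⟩
    · obtain ⟨g, hg, rfl⟩ := mem_trc φ w _ _ h
      refine ⟨ge a * g, ?_, by rw [map_mul, mul_assoc]⟩
      have h1 := FreeGroup.norm_mul_le (ge a) g
      have h2 := ge_norm a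
      rw [List.length_cons]
      omega

theorem dep_AV (T N : ℕ) (P : ℕ → ℕ → ℕ) (L : ℕ) :
    Dep (fun ω : Lab F2 T N => AV nbF P ω L 1) {i | i.1 ∈ {g : F2 | g.norm ≤ L + (3 * T + 3)}} := by
  intro ω ω' h
  unfold AV
  apply exists_congr
  intro l
  refine and_congr_right fun hl => and_congr_right fun hh => and_congr_right fun hlen => ?_
  refine forall₂_congr fun u hu => ?_
  rw [not_iff_not]
  apply dep_inI nbF T N P u ω ω'
  intro i hi
  apply h
  cases l with
  | nil => simp at hh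
  | cons q l =>
    have e : q = 1 := by simpa using hh
    subst e
    obtain ⟨w, hw1, hw2, hw3⟩ := lift_nbw (MonoidHom.id F2) l 1 hl
    rw [hw3] at hu
    obtain ⟨g, hg, rfl⟩ := mem_trc _ _ _ _ hu
    obtain ⟨g', hg', hi'⟩ := mem_Bl (MonoidHom.id F2) _ _ _ hi
    simp only [MonoidHom.id_apply, one_mul] at hi'
    rw [List.length_cons] at hlen
    show (i.1).norm ≤ _
    rw [hi']
    have h1 := FreeGroup.norm_mul_le g g'
    omega

theorem avoid_bound : ∃ (T N : ℕ) (P : ℕ → ℕ → ℕ) (K lam : ℝ) (hN : 0 < N), 0 ≤ K ∧ 0 < lam ∧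
    lam < 1 / 3 ∧ ∀ (L : ℕ), 1 ≤ L → mu {x | AV nbF P (lx T N hN x) L 1} ≤
      ENNReal.ofReal (((L + 1) * 16 * 3 ^ L : ℕ) * (K * lam ^ (L - 1))) := by
  classical
  obtain ⟨T, N, P, K, lam, hN, hK, hl0, hl, H⟩ := walk_bound
  refine ⟨T, N, P, K, lam, hN, hK, hl0, hl, ?_⟩
  intro L hL
  obtain ⟨Q, _, _, φ, hφ, hinj⟩ := exists_quot (L + 1 + 3 * T + 12)
  have hI : ∀ R, R ≤ L + 1 + 3 * T + 12 → InjB φ R :=
    fun R hR x y hx hy h => hinj x y (hx.trans hR) (hy.trans hR) h
  refine (transfer hN φ hφ {g : F2 | g.norm ≤ L + (3 * T + 3)} ?_ _ (dep_AV T N P L)).trans ?_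
  · intro a ha b hb hab
    exact hI (L + (3 * T + 3)) (by omega) a b ha hb hab
  · apply ENNReal.ofReal_le_ofReal
    have : Nonempty (Fin N) := ⟨⟨0, hN⟩⟩
    obtain ⟨hPr01, hPrmono, hPror, hPrun, hPrind, hPrind2⟩ := prob_proof (Q × Fin T) (Fin N)
    have hcov := cov_quot φ (hI 1 (by omega))
    have hnb4 := nb4_nbq φ (hI 1 (by omega))
    have huniq := uniq_nbq φ _ (hI (L + 1 + 3 * T + 12) le_rfl)
    set Z : Finset (List.Vector Q (L + 1)) :=
      (univ : Finset (List.Vector Q (L + 1))).filter (fun l => NBW (nbq φ) l.val ∧ (1 : Q) ∈ l.val)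
      with hZ
    have h1 : Pr (fun ω : Lab Q T N => AV nbF P (pull φ ω) L 1) ≤
        Pr (fun ω : Lab Q T N => ∃ l ∈ Z, ∀ u ∈ l.val, ¬ inI (nbq φ) P ω u) := by
      apply hPrmono
      rintro ω ⟨l, h1, h2, h3, h4⟩
      refine ⟨⟨l.map φ, by rw [List.length_map, h3]⟩, ?_, ?_⟩
      · refine Finset.mem_filter.2 ⟨Finset.mem_univ _, nbw_map hcov nbF_symm l h1, ?_⟩
        cases l with
        | nil => simp at h2
        | cons q l =>
          have e : q = 1 := by simpa using h2
          subst e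
          show (1 : Q) ∈ List.map φ (1 :: l)
          rw [List.map_cons, map_one]
          exact List.mem_cons_self
      · intro u hu
        have hu' : u ∈ l.map φ := hu
        rw [List.mem_map] at hu'
        obtain ⟨v, hv, rfl⟩ := hu'
        rw [← inI_pull hcov]
        exact h4 v hv
    refine h1.trans ((hPrun _ _ _).trans ?_)
    have h2 : ∀ l ∈ Z, Pr (fun ω : Lab Q T N => ∀ u ∈ l.val, ¬ inI (nbq φ) P ω u) ≤
        K * lam ^ (L - 1) := by
      intro l hl
      have hl := Finset.mem_filter.1 hl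
      exact H L hL Q (nbq φ) hnb4 huniq l.val hl.2.1 l.2
    refine (Finset.sum_le_sum h2).trans ?_
    rw [Finset.sum_const, nsmul_eq_mul]
    apply mul_le_mul_of_nonneg_right _ (by positivity)
    have h3 := count_proof Q (nbq φ) hnb4 L 1
    exact_mod_cast h3

/-- almost surely some length is not reached by walks that avoid the independent set -/
theorem ae_bound : ∃ (T N : ℕ) (P : ℕ → ℕ → ℕ) (hN : 0 < N),
    ∀ᵐ x ∂mu, ∃ L : ℕ, ¬ AV nbF P (lx T N hN x) L 1 := by
  obtain ⟨T, N, P, K, lam, hN, hK, hl0, hl, H⟩ := avoid_bound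
  refine ⟨T, N, P, hN, ?_⟩
  rw [ae_iff]
  have ht : Filter.Tendsto (fun L : ℕ => ENNReal.ofReal
      (((L + 1 + 1) * 16 * 3 ^ (L + 1) : ℕ) * (K * lam ^ L))) Filter.atTop (nhds 0) := by
    rw [← ENNReal.ofReal_zero]
    apply ENNReal.tendsto_ofReal
    have hr : |3 * lam| < 1 := by
      rw [abs_of_pos (by linarith)]; linarith
    have t1 := tendsto_pow_const_mul_const_pow_of_abs_lt_one 1 hr
    have t0 := tendsto_pow_const_mul_const_pow_of_abs_lt_one 0 hr
    have t2 := (t1.const_mul (48 * K)).add (t0.const_mul (96 * K))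
    rw [mul_zero, mul_zero, add_zero] at t2
    refine t2.congr fun L => ?_
    push_cast
    rw [mul_pow, pow_succ]
    ring
  refine le_antisymm ?_ (zero_le)
  refine ge_of_tendsto' ht fun L => ?_
  refine le_trans (measure_mono ?_) (H (L + 1) (by omega))
  intro x hx
  simp only [Set.mem_ofPred_eq, not_exists, not_not] at hx
  exact hx (L + 1)

end Pool.Agent.W105.MC
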