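import Pool.Agent.H958R2.GK.Stubs

set_option autoImplicit false

/-!
# The Cayley graph of the free group of rank two and its finite quotients of large girth

`exists_ball_rep` follows the construction in `Pool.Agent.Helper463.BCFree`.
-/

open Finset

namespace Pool.Agent.W105.MC

open Pool.Agent.H958R2.GK

/-- the free group of rank two -/
abbrev F2 : Type := FreeGroup (Fin 2)

/-- a letter -/
abbrev Ltr : Type := Fin 2 × Bool

theorem ball_fin (R : ℕ) : Finite {x : F2 // x.norm ≤ R} := by
  have h : Set.Finite {x : F2 | x.norm ≤ R} :=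
    (List.finite_length_le (Fin 2 × Bool) R).preimage FreeGroup.toWord_injective.injOn
  exact h.to_subtype

/-- the bijection between parts of the ball given by a generator -/
def ball_rep_e (R : ℕ) (s : Fin 2) :
    {x : {x : F2 // x.norm ≤ R} // (FreeGroup.of s * x.1).norm ≤ R} ≃
    {y : {x : F2 // x.norm ≤ R} // ((FreeGroup.of s)⁻¹ * y.1).norm ≤ R} where
  toFun x := ⟨⟨FreeGroup.of s * x.1.1, x.2⟩, by
    show ((FreeGroup.of s)⁻¹ * (FreeGroup.of s * x.1.1)).norm ≤ R
    rw [inv_mul_cancel_left]; exact x.1.2⟩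
  invFun y := ⟨⟨(FreeGroup.of s)⁻¹ * y.1.1, y.2⟩, by
    show (FreeGroup.of s * ((FreeGroup.of s)⁻¹ * y.1.1)).norm ≤ R
    rw [mul_inv_cancel_left]; exact y.1.2⟩
  left_inv x := by
    apply Subtype.ext; apply Subtype.ext
    show (FreeGroup.of s)⁻¹ * (FreeGroup.of s * x.1.1) = x.1.1
    rw [inv_mul_cancel_left]
  right_inv y := by
    apply Subtype.ext; apply Subtype.ext
    show FreeGroup.of s * ((FreeGroup.of s)⁻¹ * y.1.1) = y.1.1
    rw [mul_inv_cancel_left]

/-- a finite permutation representation of the free group which is injective on the ball of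
radius `R` -/
theorem exists_ball_rep (R : ℕ) : ∃ (B : Type) (_ : Fintype B) (_ : DecidableEq B)
    (π : F2 →* Equiv.Perm B), ∀ x y : F2, x.norm ≤ R → y.norm ≤ R → π x = π y → x = y := by
  classical
  haveI := ball_fin R
  letI : Fintype {x : F2 // x.norm ≤ R} := Fintype.ofFinite _
  let v₀ : {x : F2 // x.norm ≤ R} := ⟨1, by simp⟩
  let σ : Fin 2 → Equiv.Perm {x : F2 // x.norm ≤ R} := fun s =>
    (ball_rep_e R s).extendSubtype
  have hσ : ∀ (s : Fin 2) (x : {x : F2 // x.norm ≤ R})
      (hx : (FreeGroup.of s * x.1).norm ≤ R), σ s x = ⟨FreeGroup.of s * x.1, hx⟩ := by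
    intro s x hx
    exact (ball_rep_e R s).extendSubtype_apply_of_mem x hx
  have hσ' : ∀ (s : Fin 2) (x : {x : F2 // x.norm ≤ R})
      (hx : ((FreeGroup.of s)⁻¹ * x.1).norm ≤ R), (σ s)⁻¹ x = ⟨(FreeGroup.of s)⁻¹ * x.1, hx⟩ := by
    intro s x hx
    rw [Equiv.Perm.inv_eq_iff_eq]
    rw [hσ s ⟨(FreeGroup.of s)⁻¹ * x.1, hx⟩ (by
      show (FreeGroup.of s * ((FreeGroup.of s)⁻¹ * x.1)).norm ≤ R
      rw [mul_inv_cancel_left]; exact x.2)]
    apply Subtype.ext
    show x.1 = FreeGroup.of s * ((FreeGroup.of s)⁻¹ * x.1)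
    rw [mul_inv_cancel_left]
  have key : ∀ L : List (Fin 2 × Bool), L.length ≤ R →
      ((FreeGroup.lift σ (FreeGroup.mk L)) v₀).1 = FreeGroup.mk L := by
    intro L
    induction L with
    | nil =>
      intro _
      rw [← FreeGroup.one_eq_mk, map_one]
      rfl
    | cons a L ih =>
      intro hL
      obtain ⟨s, b⟩ := a
      have hL' : L.length ≤ R := by simp at hL; omega
      have h1 := ih hL'
      have h2 : FreeGroup.mk ((s, b) :: L) = FreeGroup.mk [(s, b)] * FreeGroup.mk L := by
        rw [FreeGroup.mul_mk]; rfl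
      have h3 : (FreeGroup.mk ((s, b) :: L)).norm ≤ R := FreeGroup.norm_mk_le.trans hL
      rw [h2] at h3 ⊢
      rw [map_mul, Equiv.Perm.mul_apply]
      cases b with
      | true =>
        have h4 : FreeGroup.mk [(s, true)] = FreeGroup.of s := rfl
        rw [h4] at h3 ⊢
        rw [FreeGroup.lift_apply_of, hσ s _ (by rw [h1]; exact h3)]
        exact congrArg (fun z => FreeGroup.of s * z) h1
      | false =>
        have h4 : FreeGroup.mk [(s, false)] = (FreeGroup.of s)⁻¹ := rfl
        rw [h4] at h3 ⊢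
        rw [map_inv, FreeGroup.lift_apply_of, hσ' s _ (by rw [h1]; exact h3)]
        exact congrArg (fun z => (FreeGroup.of s)⁻¹ * z) h1
  refine ⟨{x : F2 // x.norm ≤ R}, inferInstance, inferInstance, FreeGroup.lift σ, ?_⟩
  intro x y hx hy hxy
  have h1 := key x.toWord hx
  have h2 := key y.toWord hy
  rw [FreeGroup.mk_toWord] at h1 h2
  rw [← h1, ← h2, hxy]

/-- a finite quotient of the free group which is injective on the ball of radius `R` -/
theorem exists_quot (R : ℕ) : ∃ (Q : Type) (_ : Group Q) (_ : Fintype Q) (φ : F2 →* Q),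
    Function.Surjective φ ∧ ∀ x y : F2, x.norm ≤ R → y.norm ≤ R → φ x = φ y → x = y := by
  classical
  obtain ⟨B, _, _, π, hπ⟩ := exists_ball_rep R
  refine ⟨π.range, inferInstance, Fintype.ofFinite _, π.rangeRestrict,
    π.rangeRestrict_surjective, ?_⟩
  intro x y hx hy h
  exact hπ x y hx hy (congrArg Subtype.val h)

/-- the element of a letter -/
def ge (a : Ltr) : F2 := FreeGroup.mk [a]

/-- the inverse letter -/
def iv (a : Ltr) : Ltr := (a.1, !a.2)

theorem ge_iv (a : Ltr) : ge (iv a) = (ge a)⁻¹ := by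
  unfold ge iv
  rw [FreeGroup.inv_mk]
  rfl

theorem iv_iv (a : Ltr) : iv (iv a) = a := by
  unfold iv
  simp

open Classical in
/-- the neighbourhoods in the Cayley graph of a quotient -/
noncomputable def nbq {Q : Type} [Group Q] (φ : F2 →* Q) (v : Q) : Finset Q :=
  (univ : Finset Ltr).image (fun a => v * φ (ge a))

theorem mem_nbq {Q : Type} [Group Q] (φ : F2 →* Q) (v w : Q) :
    w ∈ nbq φ v ↔ ∃ a : Ltr, w = v * φ (ge a) := by
  classical
  unfold nbq
  rw [Finset.mem_image]
  constructor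
  · rintro ⟨a, -, h⟩; exact ⟨a, h.symm⟩
  · rintro ⟨a, h⟩; exact ⟨a, Finset.mem_univ _, h.symm⟩

/-- injectivity on a ball -/
def InjB {Q : Type} [Group Q] (φ : F2 →* Q) (R : ℕ) : Prop :=
  ∀ x y : F2, x.norm ≤ R → y.norm ≤ R → φ x = φ y → x = y

theorem ge_norm (a : Ltr) : (ge a).norm ≤ 1 := FreeGroup.norm_mk_le

theorem ge_ne_one (a : Ltr) : ge a ≠ 1 := by
  unfold ge
  intro h
  have := congrArg FreeGroup.toWord h
  rw [FreeGroup.toWord_mk, FreeGroup.toWord_one] at this
  revert this
  simp [FreeGroup.reduce]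

theorem ge_inj {a b : Ltr} (h : ge a = ge b) : a = b := by
  unfold ge at h
  have := congrArg FreeGroup.toWord h
  rw [FreeGroup.toWord_mk, FreeGroup.toWord_mk] at this
  simpa [FreeGroup.reduce] using this

theorem nb4_nbq {Q : Type} [Group Q] (φ : F2 →* Q) (h : InjB φ 1) : Nb4 (nbq φ) := by
  classical
  refine ⟨?_, ?_, ?_⟩
  · intro v w hw
    rw [mem_nbq] at hw ⊢
    obtain ⟨a, rfl⟩ := hw
    refine ⟨iv a, ?_⟩
    rw [ge_iv, map_inv, mul_inv_cancel_right]
  · intro v hv
    rw [mem_nbq] at hv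
    obtain ⟨a, ha⟩ := hv
    have h1 : φ (ge a) = φ 1 := by
      rw [map_one]
      exact (mul_eq_left (a := v)).1 ha.symm
    exact ge_ne_one a (h _ _ (ge_norm a) (by simp) h1)
  · intro v
    unfold nbq
    rw [Finset.card_image_of_injective]
    · rfl
    · intro a b hab
      exact ge_inj (h _ _ (ge_norm a) (ge_norm b) (mul_left_cancel hab))

/-- the walk from `q` given by a list of letters -/
def trc {Q : Type} [Group Q] (φ : F2 →* Q) : Q → List Ltr → List Q
  | q, [] => [q]
  | q, a :: w => q :: trc φ (q * φ (ge a)) w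

theorem trc_last {Q : Type} [Group Q] (φ : F2 →* Q) : ∀ (w : List Ltr) (q : Q),
    (trc φ q w).getLast? = some (q * φ (FreeGroup.mk w))
  | [], q => by
    rw [← FreeGroup.one_eq_mk, map_one, mul_one]
    rfl
  | a :: w, q => by
    have h := trc_last φ w (q * φ (ge a))
    have h2 : FreeGroup.mk (a :: w) = ge a * FreeGroup.mk w := by
      unfold ge
      rw [FreeGroup.mul_mk]; rfl
    rw [h2, map_mul, ← mul_assoc, ← h]
    unfold trc
    cases w <;> rfl

/-- the word is reduced -/
def Rdc : List Ltr → Prop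
  | [] => True
  | [_] => True
  | a :: b :: w => b ≠ iv a ∧ Rdc (b :: w)

theorem rdc_reduce : ∀ w : List Ltr, Rdc w → FreeGroup.reduce w = w
  | [], _ => rfl
  | [a], _ => by simp [FreeGroup.reduce]
  | a :: b :: w, h => by
    have ih := rdc_reduce (b :: w) h.2
    rw [FreeGroup.reduce.cons, ih]
    dsimp only
    rw [if_neg]
    rintro ⟨h1, h2⟩
    apply h.1
    unfold iv
    apply Prod.ext
    · exact h1.symm
    · simp [h2]

theorem lift_nbw {Q : Type} [Group Q] (φ : F2 →* Q) : ∀ (l : List Q) (q : Q),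
    NBW (nbq φ) (q :: l) → ∃ w : List Ltr, w.length = l.length ∧ Rdc w ∧ q :: l = trc φ q w
  | [], q, _ => ⟨[], rfl, trivial, rfl⟩
  | [b], q, h => by
    have hb : b ∈ nbq φ q := h
    rw [mem_nbq] at hb
    obtain ⟨a, rfl⟩ := hb
    exact ⟨[a], rfl, trivial, rfl⟩
  | b :: c :: l, q, h => by
    obtain ⟨hb, hqc, h3⟩ := h
    rw [mem_nbq] at hb
    obtain ⟨a, rfl⟩ := hb
    obtain ⟨w, hw1, hw2, hw3⟩ := lift_nbw φ (c :: l) (q * φ (ge a)) h3
    refine ⟨a :: w, by simp [hw1], ?_, ?_⟩
    · cases w with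
      | nil => simp at hw1
      | cons a' w =>
        refine ⟨?_, hw2⟩
        rintro rfl
        apply hqc
        simp only [trc, List.cons.injEq, true_and] at hw3
        have : c = q * φ (ge a) * φ (ge (iv a)) := by
          cases w with
          | nil => simp only [trc, List.cons.injEq] at hw3; exact hw3.1
          | cons _ _ => simp only [trc, List.cons.injEq] at hw3; exact hw3.1
        rw [this, ge_iv, map_inv, mul_inv_cancel_right]
    · rw [trc, hw3]

theorem uniq_nbq {Q : Type} [Group Q] (φ : F2 →* Q) (M : ℕ) (h : InjB φ M) : Uniq (nbq φ) M := by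
  intro l l' hl hl' hlen hlen' hhead hlast
  cases l with
  | nil =>
    cases l' with
    | nil => rfl
    | cons a l' => simp at hhead
  | cons q l =>
    cases l' with
    | nil => simp at hhead
    | cons q' l' =>
      have e : q = q' := by simpa using hhead
      subst e
      obtain ⟨w, hw1, hw2, hw3⟩ := lift_nbw φ l q hl
      obtain ⟨w', hw1', hw2', hw3'⟩ := lift_nbw φ l' q hl'
      rw [hw3, hw3', trc_last, trc_last] at hlast
      have h1 : φ (FreeGroup.mk w) = φ (FreeGroup.mk w') := by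
        simpa using hlast
      simp only [List.length_cons] at hlen hlen'
      have h2 := h _ _ (FreeGroup.norm_mk_le.trans (by omega)) (FreeGroup.norm_mk_le.trans (by omega)) h1
      have h3 := congrArg FreeGroup.toWord h2
      rw [FreeGroup.toWord_mk, FreeGroup.toWord_mk, rdc_reduce _ hw2, rdc_reduce _ hw2'] at h3
      rw [hw3, hw3', h3]

end Pool.Agent.W105.MC
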