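import Pool.Agent.W105.MC.Trans

set_option autoImplicit false

/-!
# Labels read off from a point of the Bernoulli shift
-/

open Finset MeasureTheory

namespace Pool.Agent.W105.MC

open Pool.Agent.H958R2.GK

/-- the product measure -/
noncomputable abbrev mu : Measure (F2 → unitInterval) :=
  Measure.infinitePi (fun _ : F2 => (volume : Measure unitInterval))

/-- the cell of a number, among `K` cells -/
noncomputable def cel (K : ℕ) (hK : 0 < K) (u : unitInterval) : Fin K :=
  ⟨min ⌊(K : ℝ) * u⌋₊ (K - 1), by omega⟩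

theorem meas_cel (K : ℕ) (hK : 0 < K) : Measurable (cel K hK) := by
  have h1 : Measurable (fun u : unitInterval => ⌊(K : ℝ) * (u : ℝ)⌋₊) := by
    exact Nat.measurable_floor.comp (measurable_const.mul measurable_subtype_coe)
  have h2 : Measurable (fun n : ℕ => (⟨min n (K - 1), by omega⟩ : Fin K)) :=
    measurable_of_countable _
  exact h2.comp h1

theorem vol_cel (K : ℕ) (hK : 0 < K) (j : Fin K) :
    (volume : Measure unitInterval) {u | cel K hK u = j} ≤ ENNReal.ofReal (1 / K) := by
  have hK' : (0 : ℝ) < K := by exact_mod_cast hK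
  rw [unitInterval.volume_apply]
  have h1 : (Subtype.val '' {u : unitInterval | cel K hK u = j} : Set ℝ) ⊆
      Set.Icc ((j : ℝ) / K) (((j : ℝ) + 1) / K) := by
    rintro _ ⟨u, hu, rfl⟩
    have hu' : min ⌊(K : ℝ) * u⌋₊ (K - 1) = j := congrArg Fin.val hu
    have h0 : 0 ≤ (K : ℝ) * u := mul_nonneg hK'.le u.2.1
    have f1 := Nat.floor_le h0
    have f2 := Nat.lt_floor_add_one ((K : ℝ) * u)
    have hu1 : (u : ℝ) ≤ 1 := u.2.2
    rw [Set.mem_Icc, div_le_iff₀ hK', le_div_iff₀ hK', mul_comm (u : ℝ)]
    by_cases hc : ⌊(K : ℝ) * u⌋₊ ≤ K - 1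
    · rw [min_eq_left hc] at hu'
      rw [← hu']
      exact ⟨f1, f2.le⟩
    · push Not at hc
      rw [min_eq_right hc.le] at hu'
      have h3 : (K : ℝ) ≤ ⌊(K : ℝ) * u⌋₊ := by exact_mod_cast (by omega : K ≤ _)
      have h4 : ((j : ℕ) : ℝ) + 1 = K := by
        rw [← hu']
        have : K - 1 + 1 = K := by omega
        exact_mod_cast this
      constructor
      · linarith
      · rw [h4]; nlinarith
  refine (measure_mono h1).trans ?_
  rw [Real.volume_Icc]
  apply le_of_eq
  congr 1
  field_simp
  ring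

/-- digits of a number -/
noncomputable def dg (T N : ℕ) (hN : 0 < N) (u : unitInterval) : Fin T → Fin N :=
  (Fintype.equivFinOfCardEq (α := Fin T → Fin N) (n := N ^ T) (by simp)).symm
    (cel (N ^ T) (pow_pos hN T) u)

theorem meas_dg (T N : ℕ) (hN : 0 < N) : Measurable (dg T N hN) := by
  have h : Measurable ((Fintype.equivFinOfCardEq (α := Fin T → Fin N) (n := N ^ T)
    (by simp)).symm) := measurable_of_countable _
  exact h.comp (meas_cel _ _)

theorem vol_dg (T N : ℕ) (hN : 0 < N) (η : Fin T → Fin N) :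
    (volume : Measure unitInterval) {u | dg T N hN u = η} ≤ ENNReal.ofReal (1 / (N ^ T : ℕ)) := by
  refine le_trans (measure_mono ?_) (vol_cel (N ^ T) (pow_pos hN T)
    ((Fintype.equivFinOfCardEq (α := Fin T → Fin N) (n := N ^ T) (by simp)) η))
  intro u hu
  have hu' : dg T N hN u = η := hu
  show cel _ _ u = _
  rw [← hu']
  unfold dg
  rw [Equiv.apply_symm_apply]

/-- the labels of a point -/
noncomputable def lx (T N : ℕ) (hN : 0 < N) (x : F2 → unitInterval) : Lab F2 T N :=
  fun i => dg T N hN (x i.1) i.2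

theorem meas_lx (T N : ℕ) (hN : 0 < N) (i : F2 × Fin T) :
    Measurable (fun x : F2 → unitInterval => lx T N hN x i) := by
  unfold lx
  exact (measurable_pi_apply i.2).comp ((meas_dg T N hN).comp (measurable_pi_apply i.1))

/-- an event that depends on finitely many labels is measurable -/
theorem meas_dep {T N : ℕ} (hN : 0 < N) (E : Lab F2 T N → Prop) (S : Set (F2 × Fin T))
    (hS : S.Finite) (hE : Dep E S) :
    MeasurableSet {x : F2 → unitInterval | E (lx T N hN x)} := by
  classical
  have : Finite S := hS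
  have : Fintype S := Fintype.ofFinite _
  let r : (F2 → unitInterval) → (S → Fin N) := fun x i => lx T N hN x i.1
  have hr : Measurable r := measurable_pi_iff.2 fun i => meas_lx T N hN i.1
  have h1 : {x : F2 → unitInterval | E (lx T N hN x)} =
      r ⁻¹' {η | ∃ ω : Lab F2 T N, (∀ i : S, ω i.1 = η i) ∧ E ω} := by
    ext x
    constructor
    · intro hx
      exact ⟨lx T N hN x, fun i => rfl, hx⟩
    · rintro ⟨ω, h1, h2⟩
      exact (hE ω (lx T N hN x) (fun i hi => h1 ⟨i, hi⟩)).1 h2
  rw [h1]
  exact hr (Set.toFinite _).measurableSet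

/-- an upper bound for the probability of an event for the labels at distinct places -/
theorem prob_le {T N : ℕ} (hN : 0 < N) {Q : Type} [Fintype Q] (s : Q → F2)
    (hs : Function.Injective s) (F : Lab Q T N → Prop) :
    mu {x | F (fun i => lx T N hN x (s i.1, i.2))} ≤ ENNReal.ofReal (Pr F) := by
  classical
  set K : ℕ := N ^ T with hK
  have hK0 : 0 < K := pow_pos hN T
  have hK' : (0 : ℝ) < K := by exact_mod_cast hK0
  let A : Lab Q T N → F2 → Set unitInterval := fun η v =>
    {u | ∀ q, s q = v → dg T N hN u = fun t => η (q, t)}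
  have hAs : ∀ η q, A η (s q) = {u | dg T N hN u = fun t => η (q, t)} := by
    intro η q
    ext u
    constructor
    · intro h; exact h q rfl
    · intro h q' hq'
      rw [hs hq']; exact h
  have hAm : ∀ η : Lab Q T N, ∀ v ∈ (univ : Finset Q).image s, MeasurableSet (A η v) := by
    intro η v hv
    rw [Finset.mem_image] at hv
    obtain ⟨q, -, rfl⟩ := hv
    rw [hAs]
    exact (meas_dg T N hN) (measurableSet_singleton _)
  have h1 : {x : F2 → unitInterval | F (fun i => lx T N hN x (s i.1, i.2))} ⊆
      ⋃ η ∈ (univ : Finset (Lab Q T N)).filter F,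
        Set.pi ((univ : Finset Q).image s : Finset F2) (A η) := by
    intro x hx
    rw [Set.mem_iUnion₂]
    refine ⟨fun i => lx T N hN x (s i.1, i.2), Finset.mem_filter.2 ⟨Finset.mem_univ _, hx⟩, ?_⟩
    intro v hv
    rw [Finset.mem_coe, Finset.mem_image] at hv
    obtain ⟨q, -, rfl⟩ := hv
    intro q' hq'
    rw [← hq']
    rfl
  have h2 : ∀ η : Lab Q T N, mu (Set.pi ((univ : Finset Q).image s : Finset F2) (A η)) ≤
      ENNReal.ofReal (1 / K) ^ Fintype.card Q := by
    intro η
    rw [Measure.infinitePi_pi _ (hAm η), Finset.prod_image hs.injOn]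
    calc ∏ q : Q, (volume : Measure unitInterval) (A η (s q))
        ≤ ∏ _q : Q, ENNReal.ofReal (1 / K) := by
          apply Finset.prod_le_prod'
          intro q _
          rw [hAs]
          exact vol_dg T N hN _
      _ = _ := by rw [Finset.prod_const, Finset.card_univ]
  refine (measure_mono h1).trans ((measure_biUnion_finset_le _ _).trans ?_)
  refine (Finset.sum_le_sum fun η _ => h2 η).trans ?_
  rw [Finset.sum_const, nsmul_eq_mul]
  have h3 : Pr F = (((univ : Finset (Lab Q T N)).filter F).card : ℝ) *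
      (1 / K) ^ Fintype.card Q := by
    unfold Pr
    rw [Nat.card_eq_fintype_card, Nat.card_eq_fintype_card, Fintype.card_subtype]
    have h4 : (Fintype.card (Q × Fin T → Fin N) : ℝ) = (K : ℝ) ^ Fintype.card Q := by
      rw [Fintype.card_fun, Fintype.card_fin, Fintype.card_prod, Fintype.card_fin, hK]
      push_cast
      rw [← pow_mul, mul_comm]
    rw [h4, one_div, inv_pow]
    rfl
  rw [h3, ENNReal.ofReal_mul (by positivity), ENNReal.ofReal_natCast,
    ENNReal.ofReal_pow (by positivity)]

/-- transfer of a local event to a finite quotient -/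
theorem transfer {T N : ℕ} (hN : 0 < N) {Q : Type} [Group Q] [Fintype Q] (φ : F2 →* Q)
    (hφ : Function.Surjective φ) (B : Set F2) (hB : Set.InjOn φ B) (E : Lab F2 T N → Prop)
    (hE : Dep E {i | i.1 ∈ B}) :
    mu {x | E (lx T N hN x)} ≤ ENNReal.ofReal (Pr (fun ω : Lab Q T N => E (pull φ ω))) := by
  classical
  let s : Q → F2 := fun q =>
    if h : ∃ b ∈ B, φ b = q then h.choose else (hφ q).choose
  have hs1 : ∀ q, φ (s q) = q := by
    intro q
    by_cases h : ∃ b ∈ B, φ b = q
    · simp only [s, dif_pos h]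
      exact h.choose_spec.2
    · simp only [s, dif_neg h]
      exact (hφ q).choose_spec
  have hs2 : ∀ b ∈ B, s (φ b) = b := by
    intro b hb
    have h : ∃ b' ∈ B, φ b' = φ b := ⟨b, hb, rfl⟩
    simp only [s, dif_pos h]
    exact hB h.choose_spec.1 hb h.choose_spec.2
  have hs : Function.Injective s := by
    intro q q' h
    rw [← hs1 q, ← hs1 q', h]
  refine le_trans (le_of_eq ?_) (prob_le hN s hs (fun ω : Lab Q T N => E (pull φ ω)))
  congr 1
  ext x
  apply hE
  intro i hi
  show lx T N hN x i = lx T N hN x (s (φ i.1), i.2)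
  rw [hs2 i.1 hi]

end Pool.Agent.W105.MC
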