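import Pool.Agent.W105.MC.Free
import Pool.Agent.H958R2.GK.SUPPI
import Pool.Agent.H958R2.GK.IND

set_option autoImplicit false

/-!
# The process under a covering map
-/

open Finset

namespace Pool.Agent.W105.MC

open Pool.Agent.H958R2.GK

open Classical in
/-- `f` is a covering map of neighbourhood systems -/
structure Cov {V V' : Type} (nb : V → Finset V) (nb' : V' → Finset V') (f : V → V') : Prop where
  inj : ∀ v, Set.InjOn f (nb v : Set V)
  img : ∀ v, nb' (f v) = (nb v).image f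

/-- pulled back labels -/
def pull {V V' : Type} {T N : ℕ} (f : V → V') (ω : Lab V' T N) : Lab V T N :=
  fun i => ω (f i.1, i.2)

section

variable {V V' : Type} {T N : ℕ} {nb : V → Finset V} {nb' : V' → Finset V'} {f : V → V'}

theorem coin_pull (P : ℕ → ℕ → ℕ) (ω : Lab V' T N) (v : V) (t k : ℕ) :
    coin P (pull f ω) v t k ↔ coin P ω (f v) t k := Iff.rfl

theorem cn_pull (H : Cov nb nb' f) (S : V → Prop) (S' : V' → Prop) (h : ∀ v, S v ↔ S' (f v))
    (v : V) : cn (nb v) S = cn (nb' (f v)) S' := by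
  classical
  unfold cn
  rw [H.img, Finset.filter_image, Finset.card_image_of_injOn]
  · congr 1
    apply Finset.filter_congr
    intro d _
    exact h d
  · intro a ha b hb hab
    rw [Finset.mem_coe, Finset.mem_filter] at ha hb
    exact H.inj v ha.1 hb.1 hab

theorem ball_nb (H : Cov nb nb' f) (S : V → Prop) (S' : V' → Prop) (h : ∀ v, S v ↔ S' (f v))
    (v : V) : (∀ d ∈ nb v, ¬ S d) ↔ ∀ d ∈ nb' (f v), ¬ S' d := by
  classical
  rw [H.img]
  constructor
  · intro h1 d hd
    rw [Finset.mem_image] at hd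
    obtain ⟨e, he, rfl⟩ := hd
    rw [← h]
    exact h1 e he
  · intro h1 d hd
    rw [h]
    exact h1 _ (Finset.mem_image_of_mem _ hd)

theorem fr_pull (H : Cov nb nb' f) (P : ℕ → ℕ → ℕ) (ω : Lab V' T N) (t : ℕ) (S : V → Prop)
    (S' : V' → Prop) (h : ∀ v, S v ↔ S' (f v)) (v : V) :
    fr nb P (pull f ω) t S v ↔ fr nb' P ω t S' (f v) := by
  unfold fr
  rw [h v, coin_pull, cn_pull H S S' h]

theorem jn_pull (H : Cov nb nb' f) (P : ℕ → ℕ → ℕ) (ω : Lab V' T N) (t : ℕ) (S : V → Prop)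
    (S' : V' → Prop) (h : ∀ v, S v ↔ S' (f v)) (v : V) :
    jn nb P (pull f ω) t S v ↔ jn nb' P ω t S' (f v) := by
  unfold jn
  rw [fr_pull H P ω t S S' h, ball_nb H _ _ (fr_pull H P ω t S S' h)]

theorem lv_pull (H : Cov nb nb' f) (P : ℕ → ℕ → ℕ) (ω : Lab V' T N) (t : ℕ) : ∀ v : V,
    lv nb P (pull f ω) t v ↔ lv nb' P ω t (f v) := by
  induction t with
  | zero => intro v; exact Iff.rfl
  | succ t ih =>
    intro v
    show (lv nb P (pull f ω) t v ∧ ¬ fr nb P (pull f ω) t (lv nb P (pull f ω) t) v ∧ ∀ d ∈ nb v,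
        ¬ jn nb P (pull f ω) t (lv nb P (pull f ω) t) d) ↔
      (lv nb' P ω t (f v) ∧ ¬ fr nb' P ω t (lv nb' P ω t) (f v) ∧ ∀ d ∈ nb' (f v),
        ¬ jn nb' P ω t (lv nb' P ω t) d)
    rw [ih v, fr_pull H P ω t _ _ ih, ball_nb H _ _ (jn_pull H P ω t _ _ ih)]

theorem inI_pull (H : Cov nb nb' f) (P : ℕ → ℕ → ℕ) (ω : Lab V' T N) (v : V) :
    inI nb P (pull f ω) v ↔ inI nb' P ω (f v) := by
  unfold inI
  exact exists_congr fun t => jn_pull H P ω t _ _ (lv_pull H P ω t) v

theorem nbw_map (H : Cov nb nb' f) (hs : ∀ v w, w ∈ nb v → v ∈ nb w) : ∀ l : List V,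
    NBW nb l → NBW nb' (l.map f)
  | [], _ => trivial
  | [_], _ => trivial
  | [a, b], h => by
    classical
    show f b ∈ nb' (f a)
    rw [H.img]
    exact Finset.mem_image_of_mem _ h
  | a :: b :: c :: l, h => by
    classical
    have h3 := nbw_map H hs (b :: c :: l) h.2.2
    refine ⟨?_, ?_, h3⟩
    · rw [H.img]
      exact Finset.mem_image_of_mem _ h.1
    · intro e
      apply h.2.1
      have hc : c ∈ nb b := by
        cases l with
        | nil => exact h.2.2
        | cons _ _ => exact h.2.2.1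
      exact H.inj b (hs _ _ h.1) hc e

end

/-- the support of membership in the independent set -/
theorem dep_inI {V : Type} (nb : V → Finset V) (T N : ℕ) (P : ℕ → ℕ → ℕ) (v : V) :
    Dep (fun ω : Lab V T N => inI nb P ω v) (lab (Bl nb (3 * T + 3) v)) := by
  intro ω ω' h
  have hag : SUPPI_ag nb ω ω' (3 * T + 3) v := fun u hu s => h (u, s) hu
  have key : ∀ t, t < T → (jn nb P ω t (lv nb P ω t) v ↔ jn nb P ω' t (lv nb P ω' t) v) :=
    fun t ht => SUPPI_jn (SUPPI_lv P nb ω ω' t) (3 * T + 3) (by omega) v hag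
  constructor
  · rintro ⟨t, ht⟩
    have hT : t < T := by
      obtain ⟨hT, -⟩ := ht.1.2
      exact hT
    exact ⟨t, (key t hT).mp ht⟩
  · rintro ⟨t, ht⟩
    have hT : t < T := by
      obtain ⟨hT, -⟩ := ht.1.2
      exact hT
    exact ⟨t, (key t hT).mpr ht⟩

/-- the set produced by the process is independent -/
theorem indep_inI {V : Type} {nb : V → Finset V} (hs : ∀ v w, w ∈ nb v → v ∈ nb w) {T N : ℕ}
    {P : ℕ → ℕ → ℕ} {ω : Lab V T N} {v w : V} (hv : inI nb P ω v) (hw : inI nb P ω w) :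
    w ∉ nb v := by
  intro hwv
  obtain ⟨s, hs'⟩ := hv
  obtain ⟨t, ht⟩ := hw
  have hvw : v ∈ nb w := hs v w hwv
  rcases lt_trichotomy s t with h | h | h
  · exact ind_aux nb P ω h hvw hs' ht
  · subst h
    exact hs'.2 w hwv ht.1
  · exact ind_aux nb P ω h hwv ht hs'

/-- the quotient map is a covering map -/
theorem cov_quot {Q : Type} [Group Q] (φ : F2 →* Q) (h : InjB φ 1) :
    Cov (nbq (MonoidHom.id F2)) (nbq φ) φ := by
  classical
  refine ⟨?_, ?_⟩
  · intro v a ha b hb hab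
    rw [Finset.mem_coe, mem_nbq] at ha hb
    obtain ⟨a, rfl⟩ := ha
    obtain ⟨b, rfl⟩ := hb
    rw [MonoidHom.id_apply, MonoidHom.id_apply, map_mul, map_mul] at hab
    have h1 := h _ _ (ge_norm a) (ge_norm b) (mul_left_cancel hab)
    rw [h1]
  · intro v
    ext w
    rw [mem_nbq, Finset.mem_image]
    constructor
    · rintro ⟨a, rfl⟩
      refine ⟨v * ge a, ?_, by rw [map_mul]⟩
      rw [mem_nbq]
      exact ⟨a, rfl⟩
    · rintro ⟨u, hu, rfl⟩
      rw [mem_nbq] at hu
      obtain ⟨a, rfl⟩ := hu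
      exact ⟨a, by rw [MonoidHom.id_apply, map_mul]⟩

/-- left multiplication is a covering map -/
theorem cov_mul (γ : F2) :
    Cov (nbq (MonoidHom.id F2)) (nbq (MonoidHom.id F2)) (fun v => γ * v) := by
  classical
  refine ⟨fun v => (mul_right_injective γ).injOn, ?_⟩
  intro v
  ext w
  rw [mem_nbq, @Finset.mem_image _ _ (fun a b => Classical.propDecidable (a = b))]
  constructor
  · rintro ⟨a, rfl⟩
    refine ⟨v * ge a, ?_, by rw [MonoidHom.id_apply, mul_assoc]⟩
    rw [mem_nbq]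
    exact ⟨a, rfl⟩
  · rintro ⟨u, hu, rfl⟩
    rw [mem_nbq] at hu
    obtain ⟨a, rfl⟩ := hu
    exact ⟨a, by rw [mul_assoc]⟩

/-- balls around `v` consist of short translates -/
theorem mem_Bl {Q : Type} [Group Q] (φ : F2 →* Q) (k : ℕ) : ∀ v w : Q, w ∈ Bl (nbq φ) k v →
    ∃ g : F2, g.norm ≤ k ∧ w = v * φ g := by
  classical
  induction k with
  | zero =>
    intro v w hw
    simp only [Bl, Finset.mem_singleton] at hw
    exact ⟨1, by simp, by rw [map_one, mul_one, hw]⟩
  | succ k ih =>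
    intro v w hw
    simp only [Bl, Finset.mem_union, Finset.mem_singleton, Finset.mem_biUnion] at hw
    rcases hw with hw | ⟨d, hd, hw⟩
    · exact ⟨1, by simp, by rw [map_one, mul_one, hw]⟩
    · rw [mem_nbq] at hd
      obtain ⟨a, rfl⟩ := hd
      obtain ⟨g, hg, rfl⟩ := ih _ _ hw
      refine ⟨ge a * g, ?_, by rw [map_mul, mul_assoc]⟩
      have h1 := FreeGroup.norm_mul_le (ge a) g
      have h2 := ge_norm a
      omega

end Pool.Agent.W105.MC
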